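import Mathlib

/-!
# Lists of size `d + 1` do not suffice for colour degree `d`, for every `d ≥ 2`

For every `d ≥ 2` we give a graph on `4 (d ^ 2 + d + 1)` vertices with lists of exactly `d + 1`
colours in which every colour degree is at most `d`, and which has no list colouring. So
`f(d) ≥ d + 2` for every `d ≥ 2`.

The gadget has the points `p_i` (`i ≤ d`) and `r_{a,b}` (`a, b < d`) and the colours `(i, j)`
(`i ≤ d`, `j < d`). The colour `(i, j)` is in the lists of `p_i` and of `r_{j,b}`, `b < d`, and these
`d + 1` points form a clique. So each colour of the gadget is used at most once; there are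
`d ^ 2 + d + 1` points and `d ^ 2 + d` colours, and one of the pairwise non-adjacent points `p_i` has to
take its remaining, external, colour. There are four copies `A`, `B`, `C`, `D` of the gadget. For
`i ≠ 0` the external colour of `p_i` is `α` in `A` and `B`, and every `p_i` in `A` is adjacent to every
`p_j` in `B` (`i, j ≠ 0`). So `p_0` takes its external colour in `A` or in `B`, and similarly in `C` or
in `D`. But the external colour of the four points `p_0` is the same, and `p_0` in `A` and in `B` is
adjacent to `p_0` in `C` and in `D`.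
-/

set_option autoImplicit false

namespace Pool.Agent.Results.MP_69e632_co.EveryDegree

/-- All colour degrees are at most `d`: for every vertex `v` and every colour `α` in the list of `v`
at most `d` neighbours of `v` have `α` in their lists. -/
def ColourDegreeLE {V C : Type} (G : SimpleGraph V) (L : V → Finset C) (d : ℕ) : Prop :=
  ∀ v, ∀ α ∈ L v, {w | G.Adj v w ∧ α ∈ L w}.ncard ≤ d

/-- There is a proper colouring which takes the colour of every vertex from its list. -/
def ListColourable {V C : Type} (G : SimpleGraph V) (L : V → Finset C) : Prop :=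
  ∃ c : V → C, (∀ v, c v ∈ L v) ∧ ∀ v w, G.Adj v w → c v ≠ c w

/-- Lists of size at least `k` always suffice if the maximum colour degree is at most `d`. -/
def Suffices (d k : ℕ) : Prop :=
  ∀ (V : Type) [Fintype V] (G : SimpleGraph V) (L : V → Finset ℕ),
    ColourDegreeLE G L d → (∀ v, k ≤ (L v).card) → ListColourable G L

/-- the points of a gadget: `p_i` and `r_{a,b}` -/
abbrev Point (d : ℕ) : Type := Fin (d + 1) ⊕ Fin d × Fin d

/-- the vertices: the gadget `(x, y)` is one of `A = (0,0)`, `B = (0,1)`, `C = (1,0)`, `D = (1,1)` -/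
abbrev Vert (d : ℕ) : Type := (Bool × Bool) × Point d

/-- the colours: `(g, (i, j))`, and the external colours `α`, `β` (`some x`) and `γ` (`none`) -/
abbrev Col (d : ℕ) : Type := ((Bool × Bool) × (Fin (d + 1) × Fin d)) ⊕ Option Bool

/-- the external colour of `p_i` in the gadget `g` -/
def ext {d : ℕ} (g : Bool × Bool) (i : Fin (d + 1)) : Option Bool := if i = 0 then none else some g.1

/-- the lists -/
def lists {d : ℕ} : Vert d → Finset (Col d)
  | (g, Sum.inl i) => insert (Sum.inr (ext g i)) (Finset.univ.image fun j : Fin d => Sum.inl (g, (i, j)))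
  | (g, Sum.inr (a, _)) => Finset.univ.image fun i : Fin (d + 1) => Sum.inl (g, (i, a))

/-- the adjacency -/
def adj {d : ℕ} : Vert d → Vert d → Prop
  | (g, Sum.inl i), (h, Sum.inl k) =>
      (i ≠ 0 ∧ k ≠ 0 ∧ g.1 = h.1 ∧ g.2 ≠ h.2) ∨ (i = 0 ∧ k = 0 ∧ g.1 ≠ h.1)
  | (g, Sum.inl _), (h, Sum.inr _) => g = h
  | (g, Sum.inr _), (h, Sum.inl _) => g = h
  | (g, Sum.inr (a, b)), (h, Sum.inr (a', b')) => g = h ∧ a = a' ∧ b ≠ b'

/-- the graph -/
def graph (d : ℕ) : SimpleGraph (Vert d) where
  Adj := adj
  symm := ⟨by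
    rintro ⟨g, i | ⟨a, b⟩⟩ ⟨h, k | ⟨a', b'⟩⟩ hh
    · simp only [adj] at hh ⊢
      rcases hh with ⟨h1, h2, h3, h4⟩ | ⟨h1, h2, h3⟩
      · exact Or.inl ⟨h2, h1, h3.symm, h4.symm⟩
      · exact Or.inr ⟨h2, h1, h3.symm⟩
    · simp only [adj] at hh ⊢; exact hh.symm
    · simp only [adj] at hh ⊢; exact hh.symm
    · simp only [adj] at hh ⊢; exact ⟨hh.1.symm, hh.2.1.symm, hh.2.2.symm⟩⟩
  loopless := ⟨by
    rintro ⟨g, i | ⟨a, b⟩⟩ hh
    · simp only [adj] at hh
      rcases hh with ⟨_, _, _, h4⟩ | ⟨_, _, h3⟩
      · exact h4 rfl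
      · exact h3 rfl
    · simp only [adj] at hh; exact hh.2.2 rfl⟩

lemma lists_card {d : ℕ} (v : Vert d) : (lists v).card = d + 1 := by
  rcases v with ⟨g, i | ⟨a, b⟩⟩
  · simp only [lists]
    rw [Finset.card_insert_of_notMem (by simp), Finset.card_image_of_injective]
    · simp
    · intro x y h
      simpa using h
  · simp only [lists]
    rw [Finset.card_image_of_injective]
    · simp
    · intro x y h
      simpa using h

lemma ncard_le_of_subset_range {V ι : Type} [Fintype ι] (f : ι → V) {s : Set V}
    (h : ∀ w ∈ s, ∃ i, f i = w) : s.ncard ≤ Fintype.card ι := by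
  have h1 : s ⊆ f '' Set.univ := fun w hw => by
    obtain ⟨i, hi⟩ := h w hw
    exact ⟨i, trivial, hi⟩
  calc s.ncard ≤ (f '' Set.univ).ncard := Set.ncard_le_ncard h1 (Set.toFinite _)
    _ ≤ (Set.univ : Set ι).ncard := Set.ncard_image_le Set.finite_univ
    _ = Fintype.card ι := by rw [Set.ncard_univ, Nat.card_eq_fintype_card]

lemma colourDegree {d : ℕ} (hd : 2 ≤ d) : ColourDegreeLE (graph d) lists d := by
  rintro ⟨g, i | ⟨a, b⟩⟩ c hc
  · -- a point `p_i`
    simp only [lists, Finset.mem_insert, Finset.mem_image, Finset.mem_univ, true_and] at hc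
    rcases hc with rfl | ⟨j, rfl⟩
    · by_cases hi : i = 0
      · -- the colour `γ`
        subst hi
        refine (ncard_le_of_subset_range (ι := Bool)
          (fun y => (((!g.1, y), Sum.inl 0) : Vert d)) ?_).trans (by simpa using hd)
        rintro ⟨h, k | ⟨a', b'⟩⟩ ⟨hadj, hcol⟩
        · simp only [graph, adj] at hadj
          rcases hadj with ⟨h1, _⟩ | ⟨_, h2, h3⟩
          · exact absurd rfl h1
          · refine ⟨h.2, ?_⟩
            subst h2
            have : (!g.1) = h.1 := by
              cases hg : g.1 <;> cases hh : h.1 <;> simp_all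
            rw [this]
        · simp [lists] at hcol
      · -- the colours `α` and `β`
        refine (ncard_le_of_subset_range (ι := Fin d)
          (fun k => (((g.1, !g.2), Sum.inl k.succ) : Vert d)) ?_).trans (by simp)
        rintro ⟨h, k | ⟨a', b'⟩⟩ ⟨hadj, hcol⟩
        · simp only [graph, adj] at hadj
          rcases hadj with ⟨_, h2, h3, h4⟩ | ⟨h1, _⟩
          · obtain ⟨k', rfl⟩ := Fin.exists_succ_eq.2 h2
            refine ⟨k', ?_⟩
            have : (!g.2) = h.2 := by
              cases hg : g.2 <;> cases hh : h.2 <;> simp_all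
            rw [this, h3]
          · exact absurd h1 hi
        · simp [lists] at hcol
    · -- an internal colour
      refine (ncard_le_of_subset_range (ι := Fin d)
        (fun b => ((g, Sum.inr (j, b)) : Vert d)) ?_).trans (by simp)
      rintro ⟨h, k | ⟨a', b'⟩⟩ ⟨hadj, hcol⟩
      · exfalso
        simp only [lists, Finset.mem_insert, Finset.mem_image, Finset.mem_univ, true_and,
          reduceCtorEq, false_or, Sum.inl.injEq, Prod.mk.injEq] at hcol
        obtain ⟨j', h1, h2, h3⟩ := hcol
        simp only [graph, adj] at hadj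
        rcases hadj with ⟨_, _, _, h4⟩ | ⟨_, _, h4⟩
        · exact h4 (by rw [h1])
        · exact h4 (by rw [h1])
      · simp only [lists, Finset.mem_image, Finset.mem_univ, true_and, Sum.inl.injEq,
          Prod.mk.injEq] at hcol
        obtain ⟨i', h1, h2, h3⟩ := hcol
        exact ⟨b', by rw [h1, h3]⟩
  · -- a point `r_{a,b}`
    simp only [lists, Finset.mem_image, Finset.mem_univ, true_and] at hc
    obtain ⟨i, rfl⟩ := hc
    refine (ncard_le_of_subset_range (ι := Fin d)
      (fun b' => if b' = b then ((g, Sum.inl i) : Vert d) else (g, Sum.inr (a, b'))) ?_).trans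
        (by simp)
    rintro ⟨h, k | ⟨a', b'⟩⟩ ⟨hadj, hcol⟩
    · simp only [lists, Finset.mem_insert, Finset.mem_image, Finset.mem_univ, true_and,
        reduceCtorEq, false_or, Sum.inl.injEq, Prod.mk.injEq] at hcol
      obtain ⟨j', h1, h2, h3⟩ := hcol
      exact ⟨b, by rw [if_pos rfl, h1, h2]⟩
    · simp only [graph, adj] at hadj
      obtain ⟨h1, h2, h3⟩ := hadj
      exact ⟨b', by rw [if_neg (Ne.symm h3), h1, h2]⟩

/-- in every list colouring, every gadget uses one of its external slots -/
lemma external {d : ℕ} {c : Vert d → Col d} (hL : ∀ v, c v ∈ lists v)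
    (hc : ∀ v w, (graph d).Adj v w → c v ≠ c w) (g : Bool × Bool) :
    ∃ i : Fin (d + 1), c (g, Sum.inl i) = Sum.inr (ext g i) := by
  by_contra hcon
  push Not at hcon
  -- every point of the gadget has an internal colour
  have h1 : ∀ x : Point d, ∃ y : Fin (d + 1) × Fin d, c (g, x) = Sum.inl (g, y) := by
    rintro (i | ⟨a, b⟩)
    · have := hL (g, Sum.inl i)
      simp only [lists, Finset.mem_insert, Finset.mem_image, Finset.mem_univ, true_and] at this
      rcases this with h | ⟨j, h⟩
      · exact absurd h (hcon i)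
      · exact ⟨(i, j), h.symm⟩
    · have := hL (g, Sum.inr (a, b))
      simp only [lists, Finset.mem_image, Finset.mem_univ, true_and] at this
      obtain ⟨i, h⟩ := this
      exact ⟨(i, a), h.symm⟩
  choose y hy using h1
  -- different points have different colours
  have hinj : Function.Injective y := by
    intro x x' hxx
    by_contra hne
    have heq : c (g, x) = c (g, x') := by rw [hy, hy, hxx]
    have m1 := hL (g, x)
    have m2 := hL (g, x')
    rw [hy] at m1 m2
    rcases x with i | ⟨a, b⟩ <;> rcases x' with i' | ⟨a', b'⟩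
    · simp only [lists, Finset.mem_insert, Finset.mem_image, Finset.mem_univ, true_and,
        reduceCtorEq, false_or, Sum.inl.injEq, Prod.mk.injEq] at m1 m2
      obtain ⟨j1, e1⟩ := m1
      obtain ⟨j2, e2⟩ := m2
      apply hne
      have : (i, j1) = (i', j2) := by rw [e1, e2]; exact hxx
      rw [(Prod.mk.injEq _ _ _ _ ▸ this : i = i' ∧ j1 = j2).1]
    · exact hc _ _ (show (graph d).Adj (g, Sum.inl i) (g, Sum.inr (a', b')) from rfl) heq
    · exact hc _ _ (show (graph d).Adj (g, Sum.inr (a, b)) (g, Sum.inl i') from rfl) heq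
    · simp only [lists, Finset.mem_image, Finset.mem_univ, true_and, Sum.inl.injEq,
        Prod.mk.injEq] at m1 m2
      obtain ⟨i1, e1⟩ := m1
      obtain ⟨i2, e2⟩ := m2
      have : (i1, a) = (i2, a') := by rw [e1, e2]; exact hxx
      have ha : a = a' := (Prod.mk.injEq _ _ _ _ ▸ this : i1 = i2 ∧ a = a').2
      subst ha
      have hb : b ≠ b' := fun h => hne (by rw [h])
      exact hc _ _ (show (graph d).Adj (g, Sum.inr (a, b)) (g, Sum.inr (a, b')) from
        ⟨rfl, rfl, hb⟩) heq
  have hcard := Fintype.card_le_of_injective y hinj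
  simp only [Fintype.card_sum, Fintype.card_prod, Fintype.card_fin] at hcard
  have : (d + 1) * d = d * d + d := by ring
  omega

/-- the graph has no list colouring -/
lemma not_colourable (d : ℕ) : ¬ ListColourable (graph d) (lists (d := d)) := by
  rintro ⟨c, hL, hc⟩
  -- in each of the pairs `A, B` and `C, D` some `p_0` has the colour `γ`
  have key : ∀ x : Bool, ∃ y : Bool, c ((x, y), Sum.inl 0) = Sum.inr none := by
    intro x
    obtain ⟨i, hi⟩ := external hL hc (x, false)
    obtain ⟨k, hk⟩ := external hL hc (x, true)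
    by_cases hi0 : i = 0
    · subst hi0
      exact ⟨false, by rw [hi]; simp [ext]⟩
    · by_cases hk0 : k = 0
      · subst hk0
        exact ⟨true, by rw [hk]; simp [ext]⟩
      · exfalso
        have hadj : (graph d).Adj ((x, false), Sum.inl i) ((x, true), Sum.inl k) :=
          Or.inl ⟨hi0, hk0, rfl, by simp⟩
        refine hc _ _ hadj ?_
        rw [hi, hk]
        simp [ext, hi0, hk0]
  obtain ⟨y, hy⟩ := key false
  obtain ⟨y', hy'⟩ := key true
  have hadj : (graph d).Adj ((false, y), Sum.inl 0) ((true, y'), Sum.inl 0) :=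
    Or.inr ⟨rfl, rfl, by simp⟩
  exact hc _ _ hadj (by rw [hy, hy'])

/-- the internal colours induce complete graphs -/
lemma clique {d : ℕ} {v w : Vert d} (hvw : v ≠ w) {y : (Bool × Bool) × (Fin (d + 1) × Fin d)}
    (h1 : Sum.inl y ∈ lists v) (h2 : Sum.inl y ∈ lists w) : (graph d).Adj v w := by
  obtain ⟨g, i, j⟩ := y
  rcases v with ⟨h, k | ⟨a, b⟩⟩ <;> rcases w with ⟨h', k' | ⟨a', b'⟩⟩ <;>
    simp only [lists, Finset.mem_insert, Finset.mem_image, Finset.mem_univ, true_and,
      reduceCtorEq, false_or, Sum.inl.injEq, Prod.mk.injEq] at h1 h2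
  · obtain ⟨j1, e1, e2, e3⟩ := h1
    obtain ⟨j2, e4, e5, e6⟩ := h2
    exact absurd (by rw [e1, e4, e2, e5]) hvw
  · obtain ⟨j1, e1, e2, e3⟩ := h1
    obtain ⟨j2, e4, e5, e6⟩ := h2
    exact show h = h' by rw [e1, e4]
  · obtain ⟨j1, e1, e2, e3⟩ := h1
    obtain ⟨j2, e4, e5, e6⟩ := h2
    exact show h = h' by rw [e1, e4]
  · obtain ⟨j1, e1, e2, e3⟩ := h1
    obtain ⟨j2, e4, e5, e6⟩ := h2
    refine ⟨by rw [e1, e4], by rw [e3, e6], ?_⟩
    rintro rfl
    exact hvw (by rw [e1, e4, e3, e6])

/-- an embedding of the colours into the natural numbers -/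
noncomputable def code (d : ℕ) : Col d ↪ ℕ :=
  ((Fintype.equivFin (Col d)).toEmbedding).trans Fin.valEmbedding

/-- **Theorem.** For every `d ≥ 2` there is a graph on `4 (d ^ 2 + d + 1)` vertices with lists of
exactly `d + 1` colours and all colour degrees at most `d` which has no list colouring; moreover, for
all colours except three, the vertices which have the colour in their lists are pairwise adjacent. So
lists of size `k` suffice for colour degree `d` only if `k ≥ d + 2`: `f(d) ≥ d + 2` for all `d ≥ 2`. -/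
theorem result (d : ℕ) (hd : 2 ≤ d) :
    (∃ (V : Type) (_ : Fintype V) (G : SimpleGraph V) (L : V → Finset ℕ),
      Fintype.card V = 4 * (d ^ 2 + d + 1) ∧ (∀ v, (L v).card = d + 1) ∧ ColourDegreeLE G L d ∧
        ¬ ListColourable G L ∧
        ∃ E : Finset ℕ, E.card = 3 ∧ ∀ α ∉ E, ∀ v w, v ≠ w → α ∈ L v → α ∈ L w → G.Adj v w) ∧
    ∀ k, Suffices d k → d + 2 ≤ k := by
  have hmain : (∀ v : Vert d, ((lists v).map (code d)).card = d + 1) ∧
      ColourDegreeLE (graph d) (fun v => (lists v).map (code d)) d ∧
        ¬ ListColourable (graph d) (fun v => (lists v).map (code d)) := by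
    refine ⟨fun v => by rw [Finset.card_map, lists_card], ?_, ?_⟩
    · intro v α hα
      obtain ⟨c, hc, rfl⟩ := Finset.mem_map.1 hα
      have : {w | (graph d).Adj v w ∧ (code d) c ∈ (lists w).map (code d)} =
          {w | (graph d).Adj v w ∧ c ∈ lists w} := by
        ext w
        simp only [Set.mem_ofPred_eq, Finset.mem_map']
      rw [this]
      exact colourDegree hd v c hc
    · rintro ⟨c, hL, hc⟩
      apply not_colourable d
      choose c' hc'1 hc'2 using fun v => Finset.mem_map.1 (hL v)
      refine ⟨c', hc'1, fun v w hvw h => hc v w hvw ?_⟩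
      rw [← hc'2 v, ← hc'2 w, h]
  have hE : ∃ E : Finset ℕ, E.card = 3 ∧ ∀ α ∉ E, ∀ v w : Vert d, v ≠ w →
      α ∈ (lists v).map (code d) → α ∈ (lists w).map (code d) → (graph d).Adj v w := by
    refine ⟨((Finset.univ : Finset (Option Bool)).map
      (⟨Sum.inr, Sum.inr_injective⟩ : Option Bool ↪ Col d)).map (code d), by simp, ?_⟩
    intro α hα v w hvw hv hw
    obtain ⟨c, hc, rfl⟩ := Finset.mem_map.1 hv
    rw [Finset.mem_map' (code d)] at hw hα
    rcases c with y | y
    · exact clique hvw hc hw
    · exact absurd (by simp) hα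
  refine ⟨⟨Vert d, inferInstance, graph d, _, ?_, hmain.1, hmain.2.1, hmain.2.2, hE⟩, ?_⟩
  · simp only [Vert, Fintype.card_prod, Fintype.card_bool, Fintype.card_sum, Fintype.card_fin]
    ring
  · intro k hk
    by_contra hlt
    push Not at hlt
    exact hmain.2.2 (hk (Vert d) (graph d) _ hmain.2.1 fun v => by rw [hmain.1]; omega)

end Pool.Agent.Results.MP_69e632_co.EveryDegree
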